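import Pool.Agent.H4.FV.OddT

set_option autoImplicit false
set_option linter.unusedVariables false
set_option linter.unusedSectionVars false

/-! The standard algebra has no other relations on configurations (helper295; plan by helper4). -/

namespace Pool.Agent.H295.FV

open Pool.Agent.H4.FV.Odd

section

variable {p : ℕ} [Fact p.Prime] {Γ : ℕ → ℕ → Prop}

theorem fst_sum {ι : Type} (s : Finset ι) (f : ι → SA p Γ) :
    (∑ i ∈ s, f i).1 = ∑ i ∈ s, (f i).1 := by
  classical
  induction s using Finset.induction_on with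
  | empty => rfl
  | insert a s ha ih =>
    rw [Finset.sum_insert ha, Finset.sum_insert ha, ← ih]
    rfl

theorem snd_sum {ι : Type} (s : Finset ι) (f : ι → SA p Γ) :
    (∑ i ∈ s, f i).2 = ∑ i ∈ s, (f i).2 := by
  classical
  induction s using Finset.induction_on with
  | empty => rfl
  | insert a s ha ih =>
    rw [Finset.sum_insert ha, Finset.sum_insert ha, ← ih]
    rfl

theorem fst_lc {ι : Type} [Fintype ι] (u : ι → SA p Γ) (c : ι → ZMod p) (b : Bs Γ) :
    (lcA p u c).1 b = ∑ i, c i * (u i).1 b := by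
  unfold lcA
  rw [fst_sum, Finsupp.finsetSum_apply]
  rfl

/-- independence in coordinates -/
theorem ind_co (hct : T_ct p Γ) {ι : Type} [Fintype ι] {u : ι → SA p Γ} (h : IndA p u)
    (c : ι → ZMod p) (hc : ∀ b, ∑ i, c i * (u i).1 b = 0) (i : ι) : c i = 0 := by
  by_contra hi
  refine h c ⟨i, hi⟩ ((hct _).2 ?_)
  refine Finsupp.ext fun b => ?_
  rw [fst_lc, hc]
  rfl

theorem ind3 (hct : T_ct p Γ) {x y z : SA p Γ} (h : IndA p ![x, y, z]) (c0 c1 c2 : ZMod p)
    (hc : ∀ b, c0 * x.1 b + c1 * y.1 b + c2 * z.1 b = 0) : c0 = 0 ∧ c1 = 0 ∧ c2 = 0 := by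
  have h1 := ind_co hct h ![c0, c1, c2] (fun b => by
    rw [Fin.sum_univ_three]
    exact hc b)
  exact ⟨h1 0, h1 1, h1 2⟩

/-- the values of the bilinear combination -/
noncomputable def Fv {ι : Type} [Fintype ι] (u : ι → SA p Γ) (C : ι → ι → ZMod p) (b b' : Bs Γ) :
    ZMod p := ∑ q, ∑ q', C q q' * ((u q).1 b * (u q').1 b')

theorem Fv_anti {ι : Type} [Fintype ι] {u : ι → SA p Γ} {C : ι → ι → ZMod p} (hC : Altm C)
    (b b' : Bs Γ) : Fv u C b' b = - Fv u C b b' := by
  unfold Fv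
  rw [Finset.sum_comm, ← Finset.sum_neg_distrib]
  refine Finset.sum_congr rfl fun q _ => ?_
  rw [← Finset.sum_neg_distrib]
  refine Finset.sum_congr rfl fun q' _ => ?_
  rw [hC.2 q' q]
  ring

theorem rel_of_bl {ι : Type} [Fintype ι] {u : ι → SA p Γ} {C : ι → ι → ZMod p}
    (h : blA p u C = 0) : IsRel (p := p) (Γ := Γ) fun b b' => Fv u C b b' - Fv u C b' b := by
  have h1 : (blA p u C).2 = (Kr p Γ).mkQ (∑ q, ∑ q', C q q' • tn (u q).1 (u q').1) := by
    unfold blA
    rw [snd_sum, map_sum]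
    refine Finset.sum_congr rfl fun q _ => ?_
    rw [snd_sum, map_sum]
    refine Finset.sum_congr rfl fun q' _ => ?_
    rw [map_smul]
    rfl
  have h2 : (Kr p Γ).mkQ (∑ q, ∑ q', C q q' • tn (u q).1 (u q').1) = 0 := by
    rw [← h1, h]
    rfl
  rw [Submodule.mkQ_apply] at h2
  have h3 := (Submodule.Quotient.mk_eq_zero _).1 h2
  rw [mem_Kr] at h3
  have h4 : ∀ b b', (∑ q, ∑ q', C q q' • tn (u q).1 (u q').1) (b, b') = Fv u C b b' := by
    intro b b'
    unfold Fv
    rw [Finsupp.finsetSum_apply]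
    refine Finset.sum_congr rfl fun q _ => ?_
    rw [Finsupp.finsetSum_apply]
    refine Finset.sum_congr rfl fun q' _ => ?_
    rfl
  simpa only [h4] using h3

end

/-! ### The blocks -/

/-- the block of an index of a configuration -/
def blk {n m : ℕ} : Ix n m → Fin n ⊕ Fin m := Sum.map Prod.fst Prod.fst

/-- the block of a generator -/
def bb {Γ : ℕ → ℕ → Prop} : Bs Γ → ℕ ⊕ {q : ℕ × ℕ // Eo Γ q.1 q.2} := Sum.map Prod.fst Prod.fst

theorem sum_inl {n m : ℕ} {K : Type} [AddCommMonoid K] (i : Fin n) (f : Ix n m → K)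
    (hf : ∀ q, blk q ≠ Sum.inl i → f q = 0) : ∑ q, f q = ∑ j, f (Sum.inl (i, j)) := by
  rw [Fintype.sum_sum_type, Fintype.sum_prod_type]
  have h1 : ∑ x : Fin m × Fin 2, f (Sum.inr x) = 0 :=
    Finset.sum_eq_zero fun x _ => hf _ fun h => by cases h
  rw [h1, add_zero]
  refine Finset.sum_eq_single i (fun i' _ hi => ?_) fun h => absurd (Finset.mem_univ i) h
  refine Finset.sum_eq_zero fun j _ => hf _ fun h => hi ?_
  exact Sum.inl_injective h

theorem sum_inr {n m : ℕ} {K : Type} [AddCommMonoid K] (k : Fin m) (f : Ix n m → K)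
    (hf : ∀ q, blk q ≠ Sum.inr k → f q = 0) : ∑ q, f q = ∑ j, f (Sum.inr (k, j)) := by
  rw [Fintype.sum_sum_type]
  have h1 : ∑ x : Fin n × Fin 3, f (Sum.inl x) = 0 :=
    Finset.sum_eq_zero fun x _ => hf _ fun h => by cases h
  rw [h1, zero_add, Fintype.sum_prod_type]
  refine Finset.sum_eq_single k (fun i' _ hi => ?_) fun h => absurd (Finset.mem_univ k) h
  refine Finset.sum_eq_zero fun j _ => hf _ fun h => hi ?_
  exact Sum.inr_injective h

theorem srel : S_srel := by
  intro p _ hp2 Γ hct htri hqd n m s t hS C hC hR hne v y z a b hcfg hbl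
  have h2 : (2 : ZMod p) ≠ 0 := by
    intro h
    have h1 : ((2 : ℕ) : ZMod p) = 0 := by exact_mod_cast h
    rw [ZMod.natCast_eq_zero_iff] at h1
    exact hp2 ((Nat.prime_dvd_prime_iff_eq Fact.out Nat.prime_two).1 h1)
  obtain ⟨u, hu⟩ : ∃ u : Ix n m → SA p Γ, u = cf v y z a b := ⟨_, rfl⟩
  have u0 : ∀ i, u (Sum.inl (i, 0)) = v i := fun i => by rw [hu]; rfl
  have u1 : ∀ i, u (Sum.inl (i, 1)) = y i := fun i => by rw [hu]; rfl
  have u2 : ∀ i, u (Sum.inl (i, 2)) = z i := fun i => by rw [hu]; rfl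
  have w0 : ∀ k, u (Sum.inr (k, 0)) = a k := fun i => by rw [hu]; rfl
  have w1 : ∀ k, u (Sum.inr (k, 1)) = b k := fun i => by rw [hu]; rfl
  rw [← hu] at hbl
  -- the relations
  have hrel := rel_of_bl hbl
  have hanti := Fv_anti (u := u) hC
  have hz : ∀ c d, Fv u C c d - Fv u C d c = 0 → Fv u C c d = 0 := by
    intro c d h
    rw [hanti c d] at h
    have h1 : 2 * Fv u C c d = 0 := by linear_combination h
    exact (mul_eq_zero.1 h1).resolve_left h2
  have hz' : ∀ c d, Fv u C c d = 0 → Fv u C d c = 0 := by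
    intro c d h
    rw [hanti c d, h, neg_zero]
  -- the vertices
  have hv1 := fun i => (htri (v i) (y i) (z i)).1 (hcfg.tri i)
  choose ν hν using fun i => (hv1 i).2
  have hνv : ∀ i, (v i).1 (Sum.inl (ν i, 0)) ≠ 0 := by
    intro i h
    have h1 := ind3 hct (hv1 i).1 1 0 0 (fun b => by
      rw [one_mul, zero_mul, zero_mul, add_zero, add_zero]
      by_cases hb : b = Sum.inl (ν i, 0)
      · rw [hb, h]
      · exact (hν i).1 b hb)
    exact one_ne_zero h1.1
  have hνinj : Function.Injective ν := by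
    intro i j hij
    by_contra hne'
    refine hcfg.ne i j hne' ?_
    refine ⟨fun _ => - ((v j).1 (Sum.inl (ν i, 0)) / (v i).1 (Sum.inl (ν i, 0))), (hct _).2 ?_⟩
    refine Finsupp.ext fun c => ?_
    have h1 : (v j + lcA p (fun _ : Fin 1 => v i)
        (fun _ => - ((v j).1 (Sum.inl (ν i, 0)) / (v i).1 (Sum.inl (ν i, 0))))).1 c =
        (v j).1 c + (lcA p (fun _ : Fin 1 => v i)
        (fun _ => - ((v j).1 (Sum.inl (ν i, 0)) / (v i).1 (Sum.inl (ν i, 0))))).1 c := rfl
    rw [h1, fst_lc, Fin.sum_univ_one]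
    by_cases hc : c = Sum.inl (ν i, 0)
    · rw [hc]
      have h3 := hνv i
      field_simp
      show _ = (0 : ZMod p)
      ring
    · rw [(hν i).1 c hc, (hν j).1 c (by rw [← hij]; exact hc), mul_zero, add_zero]
      rfl
  -- the edges
  have hk1 := fun k => (hqd (v (s k)) (v (t k)) (a k) (b k)).1 (hcfg.qd k)
  choose e vv ww he using hk1
  have hvs : ∀ k, vv k = ν (s k) := by
    intro k
    by_contra h
    refine (he k).2.1 ((hν (s k)).1 _ fun h1 => h ?_)
    exact congrArg Prod.fst (Sum.inl_injective h1)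
  have hwt : ∀ k, ww k = ν (t k) := by
    intro k
    by_contra h
    refine (he k).2.2.2.1 ((hν (t k)).1 _ fun h1 => h ?_)
    exact congrArg Prod.fst (Sum.inl_injective h1)
  have heinj : Function.Injective e := by
    intro k l hkl
    apply hS.inj
    have h1 := (he k).2.2.2.2.2
    have h3 := (he l).2.2.2.2.2
    rw [hvs, hwt] at h1 h3
    rw [hkl] at h1
    rcases h1 with ⟨h4, h5, -⟩ | ⟨h4, h5, -⟩ <;> rcases h3 with ⟨h6, h7, -⟩ | ⟨h6, h7, -⟩
    · exact Or.inl ⟨hνinj (h4.trans h6.symm), hνinj (h5.trans h7.symm)⟩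
    · exact Or.inr ⟨hνinj (h4.trans h7.symm), hνinj (h5.trans h6.symm)⟩
    · exact Or.inr ⟨hνinj (h4.trans h7.symm), hνinj (h5.trans h6.symm)⟩
    · exact Or.inl ⟨hνinj (h4.trans h6.symm), hνinj (h5.trans h7.symm)⟩
  -- the supports
  obtain ⟨θ, hθ⟩ : ∃ θ : Fin n ⊕ Fin m → ℕ ⊕ {q : ℕ × ℕ // Eo Γ q.1 q.2}, θ = Sum.map ν e :=
    ⟨_, rfl⟩
  have hθinj : Function.Injective θ := by
    rw [hθ]
    exact Sum.map_injective.2 ⟨hνinj, heinj⟩
  have hsupp : ∀ q c, bb c ≠ θ (blk q) → (u q).1 c = 0 := by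
    rintro (⟨i, j⟩ | ⟨k, j⟩) c hc
    · have hc1 : ∀ l, c ≠ Sum.inl (ν i, l) := by
        intro l h
        apply hc
        rw [h, hθ]
        rfl
      fin_cases j
      · show (u (Sum.inl (i, 0))).1 c = 0
        rw [u0]
        exact (hν i).1 c (hc1 0)
      · show (u (Sum.inl (i, 1))).1 c = 0
        rw [u1]
        exact ((hν i).2 c hc1).1
      · show (u (Sum.inl (i, 2))).1 c = 0
        rw [u2]
        exact ((hν i).2 c hc1).2
    · have hc1 : ∀ l, c ≠ Sum.inr (e k, l) := by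
        intro l h
        apply hc
        rw [h, hθ]
        rfl
      fin_cases j
      · show (u (Sum.inr (k, 0))).1 c = 0
        rw [w0]
        exact ((he k).2.2.2.2.1 c hc1).1
      · show (u (Sum.inr (k, 1))).1 c = 0
        rw [w1]
        exact ((he k).2.2.2.2.1 c hc1).2
  -- independence of the whole family
  have hind : ∀ c : Ix n m → ZMod p, (∀ d, ∑ q, c q * (u q).1 d = 0) → ∀ q, c q = 0 := by
    intro c hc
    have hblock : ∀ (B : Fin n ⊕ Fin m) (d : Bs Γ), bb d = θ B → ∀ q, blk q ≠ B →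
        c q * (u q).1 d = 0 := by
      intro B d hd q hq
      rw [hsupp q d (fun h => hq (hθinj (h.symm.trans hd))), mul_zero]
    rintro (⟨i, j⟩ | ⟨k, j⟩)
    · have h1 := ind3 hct (hv1 i).1 (c (Sum.inl (i, 0))) (c (Sum.inl (i, 1)))
        (c (Sum.inl (i, 2))) (fun d => by
          by_cases hd : bb d = θ (Sum.inl i)
          · have h3 := hc d
            rw [sum_inl i _ (hblock _ d hd), Fin.sum_univ_three, u0, u1, u2] at h3
            exact h3
          · have h3 := fun j => hsupp (Sum.inl (i, j)) d hd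
            rw [← u0, ← u1, ← u2, h3, h3, h3]
            ring)
      fin_cases j
      · exact h1.1
      · exact h1.2.1
      · exact h1.2.2
    · have h1 := ind_co hct (hcfg.qd k).2.2.1 ![0, 0, c (Sum.inr (k, 0)), c (Sum.inr (k, 1))]
        (fun d => by
          rw [Fin.sum_univ_four]
          show (0 : ZMod p) * (v (s k)).1 d + 0 * (v (t k)).1 d + c (Sum.inr (k, 0)) * (a k).1 d
            + c (Sum.inr (k, 1)) * (b k).1 d = 0
          rw [zero_mul, zero_mul, zero_add, zero_add]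
          by_cases hd : bb d = θ (Sum.inr k)
          · have h3 := hc d
            rw [sum_inr k _ (hblock _ d hd), Fin.sum_univ_two, w0, w1] at h3
            exact h3
          · have h3 := fun j => hsupp (Sum.inr (k, j)) d hd
            rw [← w0, ← w1, h3, h3]
            ring)
      fin_cases j
      · exact h1 2
      · exact h1 3
  -- the diagonal blocks
  have hκ : ∀ i, C (Sum.inl (i, 1)) (Sum.inl (i, 2)) = 0 := by
    intro i
    by_contra hκ
    have h1 : Fv u C (Sum.inl (ν i, 1)) (Sum.inl (ν i, 2)) = 0 :=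
      hz _ _ (hrel.v'' (ν i) (ν i) 1 2 (by decide) (by decide))
    have hd : ∀ l, bb (Γ := Γ) (Sum.inl (ν i, l)) = θ (Sum.inl i) := fun l => by rw [hθ]; rfl
    have h3 : Fv u C (Sum.inl (ν i, 1)) (Sum.inl (ν i, 2)) =
        C (Sum.inl (i, 1)) (Sum.inl (i, 2)) *
          ((y i).1 (Sum.inl (ν i, 1)) * (z i).1 (Sum.inl (ν i, 2)) -
            (z i).1 (Sum.inl (ν i, 1)) * (y i).1 (Sum.inl (ν i, 2))) := by
      unfold Fv
      rw [sum_inl i _ (fun q hq => Finset.sum_eq_zero fun q' _ => by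
        rw [hsupp q _ (fun h => hq (hθinj (h.symm.trans (hd 1)))), zero_mul, mul_zero])]
      have h4 : ∀ j, ∑ q', C (Sum.inl (i, j)) q' * ((u (Sum.inl (i, j))).1 (Sum.inl (ν i, 1)) *
          (u q').1 (Sum.inl (ν i, 2))) = ∑ l, C (Sum.inl (i, j)) (Sum.inl (i, l)) *
            ((u (Sum.inl (i, j))).1 (Sum.inl (ν i, 1)) *
              (u (Sum.inl (i, l))).1 (Sum.inl (ν i, 2))) := by
        intro j
        exact sum_inl i _ (fun q hq => by
          rw [hsupp q _ (fun h => hq (hθinj (h.symm.trans (hd 2)))), mul_zero, mul_zero])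
      rw [Fin.sum_univ_three, h4, h4, h4, Fin.sum_univ_three, Fin.sum_univ_three,
        Fin.sum_univ_three, u0, u1, u2, hC.1, hC.1, hC.1, hR.1, hR.2.1,
        hC.2 (Sum.inl (i, 1)) (Sum.inl (i, 0)), hC.2 (Sum.inl (i, 2)) (Sum.inl (i, 0)),
        hC.2 (Sum.inl (i, 2)) (Sum.inl (i, 1)), hR.1, hR.2.1]
      ring
    rw [h3] at h1
    have h5 := (mul_eq_zero.1 h1).resolve_left hκ
    have hyz : ∀ c1 c2 : ZMod p, c1 * (y i).1 (Sum.inl (ν i, 1)) + c2 * (z i).1 (Sum.inl (ν i, 1)) = 0 →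
        c1 * (y i).1 (Sum.inl (ν i, 2)) + c2 * (z i).1 (Sum.inl (ν i, 2)) = 0 → c1 = 0 ∧ c2 = 0 := by
      intro c1 c2 g1 g2
      refine (ind3 hct (hv1 i).1 (- (c1 * (y i).1 (Sum.inl (ν i, 0)) +
        c2 * (z i).1 (Sum.inl (ν i, 0))) / (v i).1 (Sum.inl (ν i, 0))) c1 c2 fun d => ?_).2
      by_cases hd0 : d = Sum.inl (ν i, 0)
      · rw [hd0]
        have := hνv i
        field_simp
        ring
      · rw [(hν i).1 d hd0, mul_zero, zero_add]
        by_cases hd1 : d = Sum.inl (ν i, 1)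
        · rw [hd1]
          exact g1
        by_cases hd2 : d = Sum.inl (ν i, 2)
        · rw [hd2]
          exact g2
        have hd3 : ∀ l, d ≠ Sum.inl (ν i, l) := by
          intro l
          fin_cases l
          · exact hd0
          · exact hd1
          · exact hd2
        rw [((hν i).2 d hd3).1, ((hν i).2 d hd3).2]
        ring
    have g1 := hyz ((z i).1 (Sum.inl (ν i, 1))) (- (y i).1 (Sum.inl (ν i, 1))) (by ring)
      (by linear_combination - h5)
    have g2 := hyz ((z i).1 (Sum.inl (ν i, 2))) (- (y i).1 (Sum.inl (ν i, 2)))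
      (by linear_combination h5) (by ring)
    have g3 := hyz 1 0 (by rw [neg_eq_zero.1 g1.2]; ring) (by rw [neg_eq_zero.1 g2.2]; ring)
    exact one_ne_zero g3.1
  have hdiag : ∀ q q', blk q = blk q' → C q q' = 0 := by
    rintro (⟨i, j⟩ | ⟨k, j⟩) (⟨i', j'⟩ | ⟨k', j'⟩) hb
    · have h1 : i = i' := Sum.inl_injective hb
      subst h1
      fin_cases j <;> fin_cases j'
      · exact hC.1 _
      · exact hR.1 i
      · exact hR.2.1 i
      · exact (hC.2 _ _).trans (neg_eq_zero.2 (hR.1 i))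
      · exact hC.1 _
      · exact hκ i
      · exact (hC.2 _ _).trans (neg_eq_zero.2 (hR.2.1 i))
      · exact (hC.2 _ _).trans (neg_eq_zero.2 (hκ i))
      · exact hC.1 _
    · cases hb
    · cases hb
    · have h1 : k = k' := Sum.inr_injective hb
      subst h1
      fin_cases j <;> fin_cases j'
      · exact hC.1 _
      · exact hR.2.2 k
      · exact (hC.2 _ _).trans (neg_eq_zero.2 (hR.2.2 k))
      · exact hC.1 _
  have hloc : ∀ c d, bb c = bb d → Fv u C c d = 0 := by
    intro c d hcd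
    unfold Fv
    refine Finset.sum_eq_zero fun q _ => Finset.sum_eq_zero fun q' _ => ?_
    by_cases h1 : bb c = θ (blk q)
    · by_cases h3 : bb d = θ (blk q')
      · rw [hdiag q q' (hθinj (h1.symm.trans (hcd.trans h3))), zero_mul]
      · rw [hsupp q' d h3, mul_zero, mul_zero]
    · rw [hsupp q c h1, zero_mul, mul_zero]
  -- everything vanishes
  have hvvle : ∀ x w : ℕ, x ≤ w → Fv u C (Sum.inl (x, 0)) (Sum.inl (w, 0)) = 0 := by
    intro x w hxw
    by_cases hE : Eo Γ x w
    · apply hz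
      have h1 := hrel.e ⟨(x, w), hE⟩
      simp only at h1
      rw [h1, hloc (Sum.inr (⟨(x, w), hE⟩, 0)) (Sum.inr (⟨(x, w), hE⟩, 1)) rfl,
        hloc (Sum.inr (⟨(x, w), hE⟩, 1)) (Sum.inr (⟨(x, w), hE⟩, 0)) rfl, sub_zero]
    · exact hz _ _ (hrel.vv x w hxw hE)
  have hvv' : ∀ (x w : ℕ) (j : Fin 3), j ≠ 0 → Fv u C (Sum.inl (x, 0)) (Sum.inl (w, j)) = 0 := by
    intro x w j hj
    by_cases hxw : x = w
    · subst hxw
      exact hloc _ _ rfl
    · exact hz _ _ (hrel.v' x w j hj hxw)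
  have hall : ∀ c d, Fv u C c d = 0 := by
    rintro (⟨x, i⟩ | ⟨q, i⟩) (⟨w, j⟩ | ⟨q', j⟩)
    · by_cases hi : i = 0
      · subst hi
        by_cases hj : j = 0
        · subst hj
          rcases le_total x w with h | h
          · exact hvvle x w h
          · exact hz' _ _ (hvvle w x h)
        · exact hvv' x w j hj
      · by_cases hj : j = 0
        · subst hj
          exact hz' _ _ (hvv' w x i hi)
        · exact hz _ _ (hrel.v'' x w i j hi hj)
    · exact hz _ _ (hrel.ve (x, i) (q', j))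
    · exact hz' _ _ (hz _ _ (hrel.ve (w, j) (q, i)))
    · by_cases hq : q = q'
      · subst hq
        exact hloc _ _ rfl
      · exact hz _ _ (hrel.ee (q, i) (q', j) (Or.inl hq))
  obtain ⟨q0, q0', hne0⟩ := hne
  apply hne0
  have h7 : ∀ d q', ∑ q, C q q' * (u q).1 d = 0 := by
    intro d
    apply hind fun q' => ∑ q, C q q' * (u q).1 d
    intro d'
    have h8 := hall d d'
    unfold Fv at h8
    rw [Finset.sum_comm] at h8
    rw [← h8]
    refine Finset.sum_congr rfl fun q' _ => ?_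
    rw [Finset.sum_mul]
    refine Finset.sum_congr rfl fun q _ => ?_
    ring
  exact hind (fun q => C q q0') (fun d => h7 d q0') q0

end Pool.Agent.H295.FV
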